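import Pool.Agent.Lib.MP_5893d7_nt.Af.Cm

/-!
MP_5893d7_nt, common divisors of a polynomial expression P(n, U_n, U_(n+1)) and of the Fibonacci
or Lucas number with index a n + b.

In the statement W is the Fibonacci sequence U (if W 0 = 0) or the Lucas sequence V (if W 0 = 2);
the variables 0, 1, 2 of P are z, x, y.
-/

set_option autoImplicit false

namespace Pool.Agent.Results.MP_5893d7_nt.CommonDivisors

/-- Let W = U or W = V, gcd (a, b) = 1, P a polynomial with integer coefficients in z, x, y,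
A n = P (n, U_n, U_(n+1)), and let a r + b be odd if W = U. There are d, N ≥ 1 and a primitive
integer polynomial R of degree at most 2 a deg_z P, each of whose complex roots ρ is a root of
P (z, x, y) for some complex x, y with y ^ 2 - x y - x ^ 2 = (-1) ^ r, such that one of the
following two statements (i), (ii) holds for all n of the same parity as r, with m = a n + b.
(i) The number gcd (A n, W m) divides d * R n, and it divides R n if m is prime to N, or W = V and
m = 2 ^ κ t with t prime to N and N not divisible by 2 ^ κ. Moreover, if the irreducible factors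
of R have degree at most 3, then gcd (A n, W m) = 1 for almost all primes m = a n + b: the
exceptional primes have density zero among all primes.
(ii) The number W m divides d * A n, and it divides A n if m is prime to N, or W = V and
m = 2 ^ κ t with t prime to N and N not divisible by 2 ^ κ. -/
theorem result (W : ℕ → ℤ) (hW : ∀ n, W (n + 2) = W (n + 1) + W n)
    (hW0 : W 0 = 0 ∨ W 0 = 2) (hW1 : W 1 = 1) (a b : ℕ) (ha : 0 < a) (hab : a.Coprime b)
    (P : MvPolynomial (Fin 3) ℤ) (A : ℕ → ℤ)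
    (hA : ∀ n, A n = MvPolynomial.eval ![(n : ℤ), (Nat.fib n : ℤ), (Nat.fib (n + 1) : ℤ)] P)
    (r : ℕ) (hr : Odd (a * r + b) ∨ W 0 = 2) :
    ∃ (d N : ℕ) (R : Polynomial ℤ), 0 < d ∧ 0 < N ∧ R.IsPrimitive ∧
      R.natDegree ≤ 2 * a * P.degreeOf 0 ∧
      (∀ ρ : ℂ, Polynomial.aeval ρ R = 0 → ∃ x y : ℂ, y ^ 2 - x * y - x ^ 2 = (-1) ^ r ∧
        MvPolynomial.aeval ![ρ, x, y] P = 0) ∧
      (((∀ n : ℕ, n % 2 = r % 2 →
          (Int.gcd (A n) (W (a * n + b)) : ℤ) ∣ d * R.eval (n : ℤ) ∧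
          ∀ κ t : ℕ, a * n + b = 2 ^ κ * t → t.Coprime N → (κ = 0 ∨ (W 0 = 2 ∧ ¬ 2 ^ κ ∣ N)) →
            (Int.gcd (A n) (W (a * n + b)) : ℤ) ∣ R.eval (n : ℤ)) ∧
        ((∀ g : Polynomial ℤ, Irreducible g → g ∣ R → g.natDegree ≤ 3) →
          Filter.Tendsto (fun x : ℕ => (Set.ncard {m : ℕ | m ≤ x ∧ m.Prime ∧
            ∃ n : ℕ, n % 2 = r % 2 ∧ m = a * n + b ∧ Int.gcd (A n) (W m) ≠ 1} : ℝ)
              / (Nat.primeCounting x : ℝ)) Filter.atTop (nhds 0))) ∨
      (∀ n : ℕ, n % 2 = r % 2 →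
        W (a * n + b) ∣ d * A n ∧
        ∀ κ t : ℕ, a * n + b = 2 ^ κ * t → t.Coprime N → (κ = 0 ∨ (W 0 = 2 ∧ ¬ 2 ^ κ ∣ N)) →
          W (a * n + b) ∣ A n)) :=
  Pool.Agent.Lib.MP_5893d7_nt.Af.comb_thm hW hW0 hW1 ha hab P A hA r hr

end Pool.Agent.Results.MP_5893d7_nt.CommonDivisors
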