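import Pool.Agent.Lib.MP_5893d7_nt.Af.Fin

/-!
MP_5893d7_nt, no algebraic factorisation of the Fibonacci and Lucas numbers at indices without
small prime factors (and, for the Lucas numbers, at powers of two).

In the statement W is the Fibonacci sequence U (if W 0 = 0) or the Lucas sequence V (if W 0 = 2).
-/

set_option autoImplicit false

namespace Pool.Agent.Results.MP_5893d7_nt.NoAlgebraicFactors

/-- Let A, B be sequences of rational numbers that satisfy linear recurrences with constant
rational coefficients, W = U or W = V, and gcd (a, b) = 1. There is N such that the following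
holds for every n ≥ N for which a n + b is prime to N, or W = V and a n + b = 2 ^ κ t with t prime
to N and N not divisible by 2 ^ κ. If A n * B n = W (a n + b), then this identity holds at
n, n + N, n + 2 N, ..., one of A, B is there a geometric progression, and, if both have integer
values there, one of them has only the values 1 and -1 there. -/
theorem result (W : ℕ → ℤ) (hW : ∀ n, W (n + 2) = W (n + 1) + W n)
    (hW0 : W 0 = 0 ∨ W 0 = 2) (hW1 : W 1 = 1) (a b : ℕ) (ha : 0 < a) (hab : a.Coprime b)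
    (A B : ℕ → ℚ) (EA EB : LinearRecurrence ℚ) (hA : EA.IsSolution A) (hB : EB.IsSolution B) :
    ∃ N : ℕ, 0 < N ∧ ∀ n ≥ N, ∀ κ t : ℕ, a * n + b = 2 ^ κ * t → t.Coprime N →
      (κ = 0 ∨ (W 0 = 2 ∧ ¬ 2 ^ κ ∣ N)) → A n * B n = W (a * n + b) →
      (∀ k, A (n + N * k) * B (n + N * k) = W (a * (n + N * k) + b)) ∧
      ((∃ c s : ℚ, c ≠ 0 ∧ s ≠ 0 ∧ ∀ k, A (n + N * k) = c * s ^ k) ∨
        (∃ c s : ℚ, c ≠ 0 ∧ s ≠ 0 ∧ ∀ k, B (n + N * k) = c * s ^ k)) ∧
      ((∀ k, ∃ y z : ℤ, A (n + N * k) = y ∧ B (n + N * k) = z) →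
        (∀ k, |A (n + N * k)| = 1) ∨ (∀ k, |B (n + N * k)| = 1)) :=
  Pool.Agent.Lib.MP_5893d7_nt.Af.main_thm hW hW0 hW1 ha hab hA hB

end Pool.Agent.Results.MP_5893d7_nt.NoAlgebraicFactors
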