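import Mathlib
import Pool.Agent.Lib.MP_5893d7_nt.Arith

/-!
No congruence class of indices is killed by small prime factors: Lucas numbers `V_{2^k}` along
arithmetic progressions of exponents `k`, and `U_p V_p` for primes `p` in a residue class.
-/

namespace Pool.Agent.Results.MP_5893d7_nt.NoSmallFactors

/-- The Lucas numbers: `V_0 = 2`, `V_1 = 1`, `V_{n+2} = V_n + V_{n+1}`. -/
def lucasV : ℕ → ℕ
  | 0 => 2
  | 1 => 1
  | n + 2 => lucasV n + lucasV (n + 1)

theorem lucasV_eq : ∀ n : ℕ, lucasV n = Pool.Agent.Lib.MP_5893d7_nt.lucas n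
  | 0 => rfl
  | 1 => rfl
  | n + 2 => by
    have h1 := lucasV_eq n
    have h2 := lucasV_eq (n + 1)
    change lucasV n + lucasV (n + 1) = _
    rw [h1, h2]
    rfl

open Pool.Agent.Lib.MP_5893d7_nt

/-- A prime dividing `V_{2^k}` is `±1` modulo `2^{k+1}`. -/
theorem two_pow_dvd {k q : ℕ} (hq : q.Prime) (h : q ∣ lucas (2 ^ k)) :
    2 ^ (k + 1) ∣ q - 1 ∨ 2 ^ (k + 1) ∣ q + 1 := by
  have hF : q ∣ Nat.fib (2 ^ (k + 1)) := by
    rw [pow_succ, mul_comm, ← fib_mul_lucas]
    exact Dvd.dvd.mul_left h _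
  have hcop : ∀ r : ℕ, Nat.Coprime 2 r → q ∣ Nat.fib r → False := by
    intro r hr hqr
    have h1 : q ∣ Nat.fib (Nat.gcd (2 ^ (k + 1)) r) := by
      rw [Nat.fib_gcd]; exact Nat.dvd_gcd hF hqr
    rw [Nat.Coprime.pow_left (k + 1) hr] at h1
    exact hq.one_lt.ne' (Nat.dvd_one.1 (by simpa using h1))
  have h5 : q ≠ 5 := by
    rintro rfl
    exact hcop 5 (by decide) (by decide)
  have h2 : q ≠ 2 := by
    rintro rfl
    exact hcop 3 (by decide) (by decide)
  have hnot : ¬ q ∣ Nat.fib (2 ^ k) := by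
    intro h3
    have h4 : q ∣ 2 * Nat.fib (2 ^ k + 1) := by
      rw [← lucas_eq]; exact Nat.dvd_add h h3
    have h5' : q ∣ Nat.fib (2 ^ k + 1) := by
      rcases (Nat.Prime.dvd_mul hq).1 h4 with h6 | h6
      · exact absurd ((Nat.prime_dvd_prime_iff_eq hq Nat.prime_two).1 h6) h2
      · exact h6
    have h6 := Nat.dvd_gcd h3 h5'
    rw [Nat.fib_coprime_fib_succ] at h6
    exact hq.one_lt.ne' (Nat.dvd_one.1 h6)
  have key : ∀ m : ℕ, q ∣ Nat.fib m → 2 ^ (k + 1) ∣ m := by
    intro m hm
    have h1 : q ∣ Nat.fib (Nat.gcd (2 ^ (k + 1)) m) := by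
      rw [Nat.fib_gcd]; exact Nat.dvd_gcd hF hm
    obtain ⟨j, hj, hj'⟩ := (Nat.dvd_prime_pow Nat.prime_two).1 (Nat.gcd_dvd_left (2 ^ (k + 1)) m)
    rw [hj'] at h1
    rcases Nat.lt_or_ge j (k + 1) with hlt | hge
    · exfalso
      apply hnot
      exact h1.trans (Nat.fib_dvd _ _ (pow_dvd_pow 2 (by omega)))
    · have : j = k + 1 := le_antisymm hj hge
      rw [this] at hj'
      rw [← hj']
      exact Nat.gcd_dvd_right _ _
  rcases exists_rank q hq h5 with h1 | h1
  · left; exact key _ h1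
  · right; exact key _ h1

/-- Refining a progression so that `f` takes no prime value on it. -/
theorem refine_class (f : ℕ → ℕ) (hmono : StrictMono f) (h0 : 1 ≤ f 0)
    (hper : ∀ k p : ℕ, p.Prime → p ∣ f k → ∃ d : ℕ, 0 < d ∧ ∀ t, p ∣ f (k + d * t))
    (a b : ℕ) (hb : 0 < b) :
    ∃ d : ℕ, 0 < d ∧ ∀ t : ℕ, ¬ (f (a + b + b * d + b * d * t)).Prime := by
  have hk0 : 1 < f (a + b) := by
    have : f 0 < f (a + b) := hmono (by omega)
    omega
  obtain ⟨p, hp, hpd⟩ := Nat.exists_prime_and_dvd hk0.ne'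
  obtain ⟨d, hd, hper'⟩ := hper (a + b) p hp hpd
  refine ⟨d, hd, fun t hprime => ?_⟩
  have e : a + b + b * d + b * d * t = (a + b) + d * (b * (1 + t)) := by ring
  have h1 := hper' (b * (1 + t))
  rw [← e] at h1
  have h2 : f (a + b) < f (a + b + b * d + b * d * t) := by
    apply hmono
    have : 0 < b * d := Nat.mul_pos hb hd
    omega
  have h3 : p ≤ f (a + b) := Nat.le_of_dvd (by omega) hpd
  have h4 := (Nat.prime_dvd_prime_iff_eq hp hprime).1 h1
  omega

theorem per_two {m k p : ℕ} (hp : p.Prime) {c : ZMod p} (hc : c ≠ 0)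
    (h : (m : ZMod p) * 2 ^ (k + 1) = c) (t : ℕ) :
    (m : ZMod p) * 2 ^ (k + (p - 1) * t + 1) = c := by
  have : Fact p.Prime := ⟨hp⟩
  have h2 : (2 : ZMod p) ≠ 0 := by
    intro h2
    apply hc
    rw [← h, h2, zero_pow (by omega), mul_zero]
  have h3 : (2 : ZMod p) ^ ((p - 1) * t) = 1 := by
    rw [pow_mul, ZMod.pow_card_sub_one_eq_one h2, one_pow]
  rw [show k + (p - 1) * t + 1 = (k + 1) + (p - 1) * t by ring, pow_add, h3, mul_one]
  exact h

theorem exists_class_two (a₀ b₀ : ℕ) (hb₀ : 0 < b₀) (M : ℕ) :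
    ∃ a b : ℕ, 0 < b ∧ b₀ ∣ b ∧ a₀ ≤ a ∧ b₀ ∣ a - a₀ ∧ ∀ t m : ℕ, 1 ≤ m → m ≤ M →
    ¬ (m * 2 ^ (a + b * t + 1) + 1).Prime ∧ ¬ (m * 2 ^ (a + b * t + 1) - 1).Prime := by
  induction M with
  | zero => exact ⟨a₀, b₀, hb₀, dvd_rfl, le_rfl, by simp, fun t m h1 h2 => absurd h1 (by omega)⟩
  | succ M ih =>
    obtain ⟨a, b, hb, hbb, haa, haa', ih⟩ := ih
    have hmono : ∀ x y : ℕ, x < y → (M + 1) * 2 ^ (x + 1) < (M + 1) * 2 ^ (y + 1) := by
      intro x y hxy
      exact Nat.mul_lt_mul_of_pos_left (Nat.pow_lt_pow_right (by norm_num) (by omega)) (by omega)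
    have hpos : ∀ x : ℕ, 2 ≤ (M + 1) * 2 ^ (x + 1) := by
      intro x
      have h1 : 2 ^ 1 ≤ 2 ^ (x + 1) := Nat.pow_le_pow_right (by norm_num) (by omega)
      nlinarith
    obtain ⟨d, hd, h1⟩ := refine_class (fun k => (M + 1) * 2 ^ (k + 1) + 1)
      (fun x y hxy => by have := hmono x y hxy; simp only; omega) (by have := hpos 0; omega)
      (by
        intro k p hp hpd
        refine ⟨p - 1, by have := hp.one_lt; omega, fun t => ?_⟩
        have : Fact p.Prime := ⟨hp⟩
        have e : (((M + 1 : ℕ) : ZMod p)) * 2 ^ (k + 1) = -1 := by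
          have := (ZMod.natCast_eq_zero_iff _ p).2 hpd
          push_cast at this ⊢
          linear_combination this
        have e2 := per_two hp (by simp) e t
        refine (ZMod.natCast_eq_zero_iff _ p).1 ?_
        push_cast at e2 ⊢
        linear_combination e2) a b hb
    obtain ⟨d2, hd2, h2⟩ := refine_class (fun k => (M + 1) * 2 ^ (k + 1) - 1)
      (fun x y hxy => by
        have := hmono x y hxy
        have := hpos x
        simp only
        omega) (by have := hpos 0; omega)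
      (by
        intro k p hp hpd
        refine ⟨p - 1, by have := hp.one_lt; omega, fun t => ?_⟩
        have : Fact p.Prime := ⟨hp⟩
        have e : (((M + 1 : ℕ) : ZMod p)) * 2 ^ (k + 1) = 1 := by
          have := (ZMod.natCast_eq_zero_iff _ p).2 hpd
          rw [Nat.cast_sub (by have := hpos k; omega)] at this
          push_cast at this ⊢
          linear_combination this
        have e2 := per_two hp (by simp) e t
        refine (ZMod.natCast_eq_zero_iff _ p).1 ?_
        rw [Nat.cast_sub (by have := hpos (k + (p - 1) * t); omega)]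
        push_cast at e2 ⊢
        linear_combination e2) (a + b + b * d) (b * d) (Nat.mul_pos hb hd)
    refine ⟨a + b + b * d + b * d + b * d * d2, b * d * d2,
      Nat.mul_pos (Nat.mul_pos hb hd) hd2, Dvd.dvd.mul_right (Dvd.dvd.mul_right hbb _) _,
      by omega, ?_, fun t m hm hm' => ?_⟩
    · have e : a + b + b * d + b * d + b * d * d2 - a₀
          = (a - a₀) + b * (1 + d + d + d * d2) := by
        have : a + b + b * d + b * d + b * d * d2 = a + b * (1 + d + d + d * d2) := by ring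
        omega
      rw [e]
      exact Nat.dvd_add haa' (Dvd.dvd.mul_right hbb _)
    rcases Nat.lt_or_ge M m with hlt | hge
    · have : m = M + 1 := by omega
      subst this
      constructor
      · have e : a + b + b * d + b * d + b * d * d2 + b * d * d2 * t
            = a + b + b * d + b * d * (1 + d2 + d2 * t) := by ring
        rw [e]
        exact h1 _
      · exact h2 t
    · have e : a + b + b * d + b * d + b * d * d2 + b * d * d2 * t
          = a + b * (1 + d + d + d * d2 + d * d2 * t) := by ring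
      rw [e]
      exact ih _ m hm hge

theorem part_one (M a₀ b₀ : ℕ) (hb₀ : 0 < b₀) : ∃ a b : ℕ, 0 < b ∧ b₀ ∣ b ∧ a ≡ a₀ [MOD b₀] ∧
    ∀ t q : ℕ, q.Prime → q ∣ lucas (2 ^ (a + b * t)) → M * 2 ^ (a + b * t) < q := by
  obtain ⟨a, b, hb, hbb, haa, haa', h⟩ := exists_class_two a₀ b₀ hb₀ M
  refine ⟨a, b, hb, hbb, ((Nat.modEq_iff_dvd' haa).2 haa').symm, fun t q hq hqd => ?_⟩
  by_contra hle
  push Not at hle
  set k := a + b * t with hk
  have h2k : 1 ≤ 2 ^ k := Nat.one_le_two_pow
  have e2 : 2 ^ (k + 1) = 2 * 2 ^ k := by ring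
  rcases two_pow_dvd hq hqd with ⟨m, hm⟩ | ⟨m, hm⟩
  · have hq1 : q = m * 2 ^ (k + 1) + 1 := by
      have := hq.one_lt
      rw [mul_comm]; omega
    have hm1 : 1 ≤ m := by
      rcases Nat.eq_zero_or_pos m with h0 | h0
      · rw [h0] at hq1; have := hq.one_lt; omega
      · exact h0
    have hmM : m ≤ M := by
      by_contra hlt
      push Not at hlt
      have h3 : (M + 1) * 2 ^ k ≤ m * 2 ^ k := Nat.mul_le_mul_right _ hlt
      rw [e2] at hq1
      nlinarith
    exact (h t m hm1 hmM).1 (by rw [← hk, ← hq1]; exact hq)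
  · have hq1 : q = m * 2 ^ (k + 1) - 1 := by
      rw [mul_comm]; omega
    have hm1 : 1 ≤ m := by
      rcases Nat.eq_zero_or_pos m with h0 | h0
      · rw [h0] at hm; omega
      · exact h0
    have hmM : m ≤ M := by
      by_contra hlt
      push Not at hlt
      have h3 : (M + 1) * 2 ^ k ≤ m * 2 ^ k := Nat.mul_le_mul_right _ hlt
      rw [e2] at hm
      nlinarith
    exact (h t m hm1 hmM).2 (by rw [← hk, ← hq1]; exact hq)

/-- Refining a coprime residue class so that `f` takes no prime value on it. -/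
theorem refine_lin (f : ℕ → ℕ) (hmono : ∀ n k : ℕ, 3 ≤ n → 0 < k → f n < f (n + k))
    (h2 : ∀ n, 3 ≤ n → 2 ≤ f n)
    (hper : ∀ n p t : ℕ, 3 ≤ n → p ∣ f n → p ∣ f (n + p * t))
    (hcop : ∀ n p : ℕ, 3 ≤ n → p.Prime → p ∣ f n → ¬ p ∣ n)
    (a b : ℕ) (hb : 0 < b) (hab : Nat.Coprime a b) :
    ∃ d : ℕ, 0 < d ∧ Nat.Coprime (a + b * (3 + d)) (b * d) ∧
      ∀ t : ℕ, ¬ (f (a + b * (3 + d) + b * d * t)).Prime := by
  have h3 : 3 ≤ a + b * 3 := by omega
  obtain ⟨p, hp, hpd⟩ := Nat.exists_prime_and_dvd (show f (a + b * 3) ≠ 1 by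
    have := h2 _ h3; omega)
  refine ⟨p, hp.pos, ?_, fun t hprime => ?_⟩
  · rw [Nat.coprime_mul_iff_right]
    constructor
    · simpa using hab
    · have e : a + b * (3 + p) = (a + b * 3) + b * p := by ring
      rw [e, Nat.coprime_add_mul_right_left, Nat.coprime_comm,
        Nat.Prime.coprime_iff_not_dvd hp]
      exact hcop _ p h3 hp hpd
  · have e : a + b * (3 + p) + b * p * t = (a + b * 3) + p * (b * (1 + t)) := by ring
    rw [e] at hprime
    have h4 := hper _ p (b * (1 + t)) h3 hpd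
    have h5 := (Nat.prime_dvd_prime_iff_eq hp hprime).1 h4
    have h6 := hmono (a + b * 3) (p * (b * (1 + t))) h3
      (Nat.mul_pos hp.pos (Nat.mul_pos hb (by omega)))
    have h7 : p ≤ f (a + b * 3) := Nat.le_of_dvd (by have := h2 _ h3; omega) hpd
    omega

theorem exists_class_lin (a b : ℕ) (hb : 0 < b) (hab : Nat.Coprime a b) (M : ℕ) :
    ∃ c d : ℕ, 0 < d ∧ Nat.Coprime (a + b * c) (b * d) ∧ ∀ t m : ℕ, 1 ≤ m → m ≤ M →
    ¬ (m * (a + b * c + b * d * t) + 1).Prime ∧ ¬ (m * (a + b * c + b * d * t) - 1).Prime := by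
  induction M with
  | zero =>
    exact ⟨0, 1, one_pos, by simpa using hab, fun t m h1 h2 => absurd h1 (by omega)⟩
  | succ M ih =>
    obtain ⟨c, d, hd, hcd, ih⟩ := ih
    have hbd : 0 < b * d := Nat.mul_pos hb hd
    obtain ⟨u, hu, huc, h1⟩ := refine_lin (fun n => (M + 1) * n + 1)
      (by
        intro n k hn hk
        have : 0 < (M + 1) * k := Nat.mul_pos (by omega) hk
        simp only [mul_add]; omega)
      (by
        intro n hn
        have : 0 < (M + 1) * n := Nat.mul_pos (by omega) (by omega)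
        omega)
      (by
        intro n p t hn h
        have e : (M + 1) * (n + p * t) + 1 = ((M + 1) * n + 1) + p * ((M + 1) * t) := by ring
        rw [e]
        exact Nat.dvd_add h (Dvd.intro _ rfl))
      (by
        intro n p hn hp h hpn
        have : p ∣ 1 := (Nat.dvd_add_right (Dvd.dvd.mul_left hpn (M + 1))).1 h
        exact hp.one_lt.ne' (Nat.dvd_one.1 this))
      (a + b * c) (b * d) hbd hcd
    obtain ⟨v, hv, hvc, h2⟩ := refine_lin (fun n => (M + 1) * n - 1)
      (by
        intro n k hn hk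
        have : 0 < (M + 1) * k := Nat.mul_pos (by omega) hk
        have : 0 < (M + 1) * n := Nat.mul_pos (by omega) (by omega)
        simp only [mul_add]; omega)
      (by
        intro n hn
        have : 1 * n ≤ (M + 1) * n := Nat.mul_le_mul_right _ (by omega)
        omega)
      (by
        intro n p t hn h
        have h0 : 1 * n ≤ (M + 1) * n := Nat.mul_le_mul_right _ (by omega)
        have e : (M + 1) * (n + p * t) - 1 = ((M + 1) * n - 1) + p * ((M + 1) * t) := by
          have : (M + 1) * (n + p * t) = (M + 1) * n + p * ((M + 1) * t) := by ring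
          omega
        rw [e]
        exact Nat.dvd_add h (Dvd.intro _ rfl))
      (by
        intro n p hn hp h hpn
        have h0 : 1 * n ≤ (M + 1) * n := Nat.mul_le_mul_right _ (by omega)
        have h1 : p ∣ (M + 1) * n := Dvd.dvd.mul_left hpn (M + 1)
        have e : (M + 1) * n = ((M + 1) * n - 1) + 1 := by omega
        rw [e] at h1
        have : p ∣ 1 := (Nat.dvd_add_right h).1 h1
        exact hp.one_lt.ne' (Nat.dvd_one.1 this))
      (a + b * c + b * d * (3 + u)) (b * d * u) (Nat.mul_pos hbd hu) huc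
    refine ⟨c + d * (3 + u) + d * u * (3 + v), d * u * v, Nat.mul_pos (Nat.mul_pos hd hu) hv,
      ?_, fun t m hm hm' => ?_⟩
    · have e1 : a + b * (c + d * (3 + u) + d * u * (3 + v))
          = a + b * c + b * d * (3 + u) + b * d * u * (3 + v) := by ring
      have e2 : b * (d * u * v) = b * d * u * v := by ring
      rw [e1, e2]
      exact hvc
    rcases Nat.lt_or_ge M m with hlt | hge
    · have : m = M + 1 := by omega
      subst this
      constructor
      · have e : a + b * (c + d * (3 + u) + d * u * (3 + v)) + b * (d * u * v) * t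
            = a + b * c + b * d * (3 + u) + b * d * u * (3 + v + v * t) := by ring
        rw [e]
        exact h1 _
      · have e : a + b * (c + d * (3 + u) + d * u * (3 + v)) + b * (d * u * v) * t
            = a + b * c + b * d * (3 + u) + b * d * u * (3 + v) + b * d * u * v * t := by ring
        rw [e]
        exact h2 _
    · have e : a + b * (c + d * (3 + u) + d * u * (3 + v)) + b * (d * u * v) * t
          = a + b * c + b * d * (3 + u + u * (3 + v) + u * v * t) := by ring
      rw [e]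
      exact ih _ m hm hge

theorem part_two (M a b : ℕ) (hb : 0 < b) (hab : Nat.Coprime a b) (N : ℕ) :
    ∃ p : ℕ, N < p ∧ p.Prime ∧ p ≡ a [MOD b] ∧
      ∀ q : ℕ, q.Prime → q ∣ Nat.fib p * lucas p → M * p < q := by
  obtain ⟨c, d, hd, hcd, h⟩ := exists_class_lin a b hb hab M
  obtain ⟨p, hpN, hp, hpm⟩ := Nat.forall_exists_prime_gt_and_modEq
    (N + 5 + (a + b * c)) (Nat.mul_pos hb hd).ne' hcd
  obtain ⟨t, ht⟩ : ∃ t, p = a + b * c + b * d * t := by
    have h1 : b * d ∣ p - (a + b * c) := (Nat.modEq_iff_dvd' (by omega)).1 hpm.symm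
    obtain ⟨t, ht⟩ := h1
    exact ⟨t, by omega⟩
  refine ⟨p, by omega, hp, ?_, fun q hq hqd => ?_⟩
  · have h1 : p = a + b * (c + d * t) := by rw [ht]; ring
    rw [h1]
    simp [Nat.ModEq]
  · by_contra hle
    push Not at hle
    have h5 : q ≠ 5 := by
      rintro rfl
      have := five_dvd hp hqd
      omega
    rcases dvd_of_dvd hp hq h5 hqd with ⟨m, hm⟩ | ⟨m, hm⟩
    · have hq1 : q = m * p + 1 := by
        have := hq.one_lt
        rw [mul_comm]; omega
      have hm1 : 1 ≤ m := by
        rcases Nat.eq_zero_or_pos m with h0 | h0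
        · rw [h0] at hq1; have := hq.one_lt; omega
        · exact h0
      have hmM : m ≤ M := by
        by_contra hlt
        push Not at hlt
        have h3 : (M + 1) * p ≤ m * p := Nat.mul_le_mul_right _ hlt
        nlinarith
      exact (h t m hm1 hmM).1 (by rw [← ht, ← hq1]; exact hq)
    · have hq1 : q = m * p - 1 := by
        rw [mul_comm]; omega
      have hm1 : 1 ≤ m := by
        rcases Nat.eq_zero_or_pos m with h0 | h0
        · rw [h0] at hm; omega
        · exact h0
      have hmM : m ≤ M := by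
        by_contra hlt
        push Not at hlt
        have h3 : (M + 1) * p ≤ m * p := Nat.mul_le_mul_right _ hlt
        have := hp.one_lt
        nlinarith
      exact (h t m hm1 hmM).2 (by rw [← ht, ← hq1]; exact hq)

/-- For every `M`: (1) every residue class `a₀ mod b₀` of exponents contains an infinite arithmetic
progression of exponents `k` such that every prime factor of `V_{2^k}` exceeds `M 2^k`; (2) every
residue class `a mod b` with `gcd(a, b) = 1` contains infinitely many primes `p` such that every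
prime factor of `U_p V_p` exceeds `M p`. -/
theorem result (M : ℕ) :
    (∀ a₀ b₀ : ℕ, 0 < b₀ → ∃ a b : ℕ, 0 < b ∧ b₀ ∣ b ∧ a ≡ a₀ [MOD b₀] ∧
      ∀ t q : ℕ, q.Prime → q ∣ lucasV (2 ^ (a + b * t)) → M * 2 ^ (a + b * t) < q) ∧
    (∀ a b : ℕ, 0 < b → Nat.Coprime a b → ∀ N : ℕ, ∃ p : ℕ, N < p ∧ p.Prime ∧ p ≡ a [MOD b] ∧
      ∀ q : ℕ, q.Prime → q ∣ Nat.fib p * lucasV p → M * p < q) := by
  constructor
  · intro a₀ b₀ hb₀
    obtain ⟨a, b, hb, h1, h2, h⟩ := part_one M a₀ b₀ hb₀
    exact ⟨a, b, hb, h1, h2, fun t q hq hqd => h t q hq (by rw [← lucasV_eq]; exact hqd)⟩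
  · intro a b hb hab N
    obtain ⟨p, h1, h2, h3, h4⟩ := part_two M a b hb hab N
    exact ⟨p, h1, h2, h3, fun q hq hqd => h4 q hq (by rw [← lucasV_eq]; exact hqd)⟩

end Pool.Agent.Results.MP_5893d7_nt.NoSmallFactors
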