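import Pool.Agent.Lib.MP_5893d7_nt.Count

/-!
Small prime factors of `U_p V_p` (`U` Fibonacci, `V` Lucas numbers) at prime indices `p` are rare.
-/

namespace Pool.Agent.Results.MP_5893d7_nt.SmallFactorsRare

open Finset

/-- The Lucas numbers: `V_0 = 2`, `V_1 = 1`, `V_{n+2} = V_n + V_{n+1}`. -/
def lucasV : ℕ → ℕ
  | 0 => 2
  | 1 => 1
  | n + 2 => lucasV n + lucasV (n + 1)

theorem lucasV_eq : ∀ n : ℕ, lucasV n = Pool.Agent.Lib.MP_5893d7_nt.lucas n
  | 0 => rfl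
  | 1 => rfl
  | n + 2 => by
    have h1 := lucasV_eq n
    have h2 := lucasV_eq (n + 1)
    change lucasV n + lucasV (n + 1) = _
    rw [h1, h2]
    rfl

/-- There is `C > 0` such that for all `x ≥ 2` and all real `K ≥ 1`, the number of pairs `(p, q)` of
primes with `p ≤ x`, `q ≤ K p` and `q ∣ U_p V_p` is at most `C K π(x) / log x`. -/
theorem result : ∃ C : ℝ, 0 < C ∧ ∀ x : ℕ, 2 ≤ x → ∀ K : ℝ, 1 ≤ K →
    ((∑ p ∈ (Icc 1 x).filter Nat.Prime,
      ((Icc 1 ⌊K * p⌋₊).filter (fun q => q.Prime ∧ q ∣ Nat.fib p * lucasV p)).card : ℕ) : ℝ)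
      ≤ C * K * (Nat.primeCounting x : ℝ) / Real.log x := by
  obtain ⟨C, hC, h⟩ := Pool.Agent.Lib.MP_5893d7_nt.main_count
  refine ⟨C, hC, fun x hx K hK => ?_⟩
  have h1 := h x hx K hK
  simpa only [lucasV_eq] using h1

end Pool.Agent.Results.MP_5893d7_nt.SmallFactorsRare
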